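import Pool.Agent.H76.SW.CT

/-!
Item CLP: the lists of bounded length over a list are primitive recursive.
-/

namespace Pool.Agent.H59.SW

open Pool.Agent.H76.SW

theorem pf_CLP : V_LP := by
  intro α _
  have h : Primrec₂ (fun (L : List α) (n : ℕ) =>
      (Nat.rec [[]] (fun _ IH => [] :: L.flatMap fun x => IH.map (List.cons x)) n :
        List (List α))) := by
    refine Primrec.nat_rec (f := fun _ : List α => [[]])
      (g := fun (L : List α) (p : ℕ × List (List α)) =>
        [] :: L.flatMap fun x => p.2.map (List.cons x)) (Primrec.const _) ?_
    refine Primrec.list_cons.comp (Primrec.const _) ?_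
    refine Primrec.list_flatMap Primrec.fst ?_
    refine Primrec.list_map (Primrec.snd.comp (Primrec.snd.comp Primrec.fst)) ?_
    exact Primrec.list_cons.comp (Primrec.snd.comp Primrec.fst) Primrec.snd
  refine h.of_eq ?_
  intro L n
  induction n with
  | zero => rfl
  | succ n ih => simp only [lists, ← ih]

end Pool.Agent.H59.SW
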