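import Pool.Agent.H76.SW.CT

/-!
Item CUP: the lists of all codes of bounded size are primitive recursive.
-/

namespace Pool.Agent.H59.SW

open Pool.Agent.H76.SW

variable (h1 : V_LP)

include h1

theorem lists_pr {α β : Type} [Primcodable α] [Primcodable β] {f : α → List β} {g : α → ℕ}
    (hf : Primrec f) (hg : Primrec g) : Primrec (fun a => lists (f a) (g a)) :=
  (h1 (α := β)).comp hf hg

omit h1 in
theorem trU_pr : Primrec trU := by
  unfold trU
  refine Primrec.list_flatMap Primrec.list_range ?_
  refine Primrec.list_flatMap (Primrec.list_range.comp Primrec.fst) ?_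
  refine Primrec.list_flatMap (Primrec.const _) ?_
  refine Primrec.list_map (Primrec.list_range.comp
    (Primrec.fst.comp (Primrec.fst.comp Primrec.fst))) ?_
  exact Primrec.pair (Primrec.pair (Primrec.snd.comp (Primrec.fst.comp (Primrec.fst.comp Primrec.fst)))
    (Primrec.pair (Primrec.snd.comp (Primrec.fst.comp Primrec.fst))
      (Primrec.snd.comp Primrec.fst))) Primrec.snd

theorem autU_pr : Primrec autU := by
  unfold autU
  refine Primrec.list_flatMap Primrec.list_range ?_
  refine Primrec.list_flatMap (lists_pr h1 (Primrec.list_range.comp Primrec.fst) Primrec.fst) ?_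
  refine Primrec.list_flatMap (lists_pr h1 (Primrec.list_range.comp
    (Primrec.fst.comp Primrec.fst)) (Primrec.fst.comp Primrec.fst)) ?_
  have hM : Primrec (fun p : ((ℕ × ℕ) × List ℕ) × List ℕ => p.1.1.1) :=
    Primrec.fst.comp (Primrec.fst.comp Primrec.fst)
  refine Primrec.list_map (lists_pr h1 (trU_pr.comp hM)
    (Primrec.list_length.comp (trU_pr.comp hM))) ?_
  exact Primrec.pair (Primrec.pair (Primrec.snd.comp (Primrec.fst.comp (Primrec.fst.comp Primrec.fst)))
    (Primrec.pair (Primrec.snd.comp (Primrec.fst.comp Primrec.fst))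
      (Primrec.snd.comp Primrec.fst))) Primrec.snd

theorem atU_pr : Primrec atU := by
  unfold atU
  refine Primrec.list_flatMap Primrec.list_range ?_
  refine Primrec.list_flatMap (Primrec.list_range.comp Primrec.fst) ?_
  refine Primrec.list_map ((autU_pr h1).comp (Primrec.fst.comp Primrec.fst)) ?_
  exact Primrec.pair (Primrec.pair (Primrec.snd.comp (Primrec.fst.comp Primrec.fst))
    (Primrec.snd.comp Primrec.fst)) Primrec.snd

theorem cqU_pr : Primrec cqU := by
  unfold cqU
  refine Primrec.list_flatMap Primrec.list_range ?_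
  refine Primrec.list_flatMap (lists_pr h1 (Primrec.list_range.comp Primrec.fst) Primrec.fst) ?_
  refine Primrec.list_map (lists_pr h1 ((atU_pr h1).comp (Primrec.fst.comp Primrec.fst))
    (Primrec.fst.comp Primrec.fst)) ?_
  exact Primrec.pair (Primrec.pair (Primrec.snd.comp (Primrec.fst.comp Primrec.fst))
    (Primrec.snd.comp Primrec.fst)) Primrec.snd

theorem uqU_pr : Primrec uqU := by
  unfold uqU
  exact lists_pr h1 (cqU_pr h1) Primrec.id

theorem prU_pr : Primrec prU := by
  unfold prU
  refine Primrec.list_flatMap (lists_pr h1 (uqU_pr h1) Primrec.id) ?_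
  refine Primrec.list_map ((uqU_pr h1).comp Primrec.fst) ?_
  exact Primrec.pair (Primrec.snd.comp Primrec.fst) Primrec.snd

omit h1 in
theorem egU_pr (a : ℕ) : Primrec (fun n => egU n a) := by
  unfold egU
  refine Primrec.list_flatMap Primrec.list_range ?_
  refine Primrec.list_flatMap (Primrec.const _) ?_
  refine Primrec.list_map (Primrec.list_range.comp (Primrec.fst.comp Primrec.fst)) ?_
  exact Primrec.pair (Primrec.pair (Primrec.snd.comp (Primrec.fst.comp Primrec.fst))
    (Primrec.snd.comp Primrec.fst)) Primrec.snd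

theorem pf_CUP : V_UP := by
  refine ⟨prU_pr h1, fun a => ?_⟩
  unfold grU
  exact lists_pr h1 (egU_pr a) (Primrec.list_length.comp (egU_pr a))

end Pool.Agent.H59.SW
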