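import Pool.Agent.H76.SW.T2

/-!
Item EL2: the bound for the graphs is at most sixfold exponential.
-/

namespace Pool.Agent.H59.SW

open Pool.Agent.H76.SW

/-- Tower of twos. -/
def T : ℕ → ℕ → ℕ
  | 0, x => x
  | i + 1, x => 2 ^ T i x

theorem T_mono (i : ℕ) : Monotone (T i) := by
  induction i with
  | zero => intro a b h; exact h
  | succ i ih => intro a b h; exact Nat.pow_le_pow_right (by norm_num) (ih h)

theorem T_succ_ge (i x : ℕ) : T i x ≤ T (i + 1) x := Nat.lt_two_pow_self.le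

theorem T_ge (i x : ℕ) : x ≤ T i x := by
  induction i with
  | zero => exact le_refl _
  | succ i ih => exact ih.trans (T_succ_ge i x)

theorem T_add (i a b : ℕ) (ha : 1 ≤ a) (hb : 1 ≤ b) : T i a + T i b + 1 ≤ T i (a + b + 1) := by
  induction i with
  | zero => exact le_refl _
  | succ i ih =>
    have h1 : 2 ≤ 2 ^ T i a := by
      calc 2 = 2 ^ 1 := by norm_num
        _ ≤ 2 ^ T i a := Nat.pow_le_pow_right (by norm_num) (ha.trans (T_ge i a))
    have h2 : 2 ≤ 2 ^ T i b := by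
      calc 2 = 2 ^ 1 := by norm_num
        _ ≤ 2 ^ T i b := Nat.pow_le_pow_right (by norm_num) (hb.trans (T_ge i b))
    have h3 : 2 ^ T i a * 2 ^ T i b * 2 ≤ 2 ^ T i (a + b + 1) := by
      calc 2 ^ T i a * 2 ^ T i b * 2 = 2 ^ (T i a + T i b + 1) := by
            rw [pow_succ, pow_add]
        _ ≤ _ := Nat.pow_le_pow_right (by norm_num) ih
    show 2 ^ T i a + 2 ^ T i b + 1 ≤ 2 ^ T i (a + b + 1)
    nlinarith

/-- Growth class. -/
def E (i : ℕ) (f : ℕ → ℕ) : Prop := ∃ c : ℕ, ∀ s, f s ≤ T i ((c + 1) * (s + 1))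

theorem E_up {i : ℕ} {f : ℕ → ℕ} (h : E i f) : E (i + 1) f := by
  obtain ⟨c, hc⟩ := h
  exact ⟨c, fun s => (hc s).trans (T_succ_ge _ _)⟩

theorem E_le {i j : ℕ} (hij : i ≤ j) {f : ℕ → ℕ} (h : E i f) : E j f := by
  induction hij with
  | refl => exact h
  | step _ ih => exact E_up ih

theorem E_pow {i : ℕ} {f : ℕ → ℕ} (h : E i f) : E (i + 1) (fun s => 2 ^ f s) := by
  obtain ⟨c, hc⟩ := h
  exact ⟨c, fun s => Nat.pow_le_pow_right (by norm_num) (hc s)⟩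

theorem E_const (i n : ℕ) : E i (fun _ => n) := by
  refine ⟨n, fun s => ?_⟩
  refine le_trans ?_ (T_ge _ _)
  nlinarith

theorem E_id (i : ℕ) : E i (fun s => s) := by
  refine ⟨0, fun s => ?_⟩
  refine le_trans ?_ (T_ge _ _)
  show s ≤ (0 + 1) * (s + 1)
  omega

theorem T_add' (i c d s : ℕ) :
    T i ((c + 1) * (s + 1)) + T i ((d + 1) * (s + 1)) ≤ T i ((c + d + 2 + 1) * (s + 1)) := by
  have h := T_add i ((c + 1) * (s + 1)) ((d + 1) * (s + 1))
    (Nat.mul_pos (by omega) (by omega)) (Nat.mul_pos (by omega) (by omega))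
  have h2 : T i ((c + 1) * (s + 1) + (d + 1) * (s + 1) + 1) ≤
      T i ((c + d + 2 + 1) * (s + 1)) := T_mono i (by nlinarith)
  omega

theorem E_add {i : ℕ} {f g : ℕ → ℕ} (hf : E i f) (hg : E i g) : E i (fun s => f s + g s) := by
  obtain ⟨c, hc⟩ := hf
  obtain ⟨d, hd⟩ := hg
  exact ⟨c + d + 2, fun s => (Nat.add_le_add (hc s) (hd s)).trans (T_add' i c d s)⟩

theorem E_mul {i : ℕ} {f g : ℕ → ℕ} (hf : E (i + 1) f) (hg : E (i + 1) g) :
    E (i + 1) (fun s => f s * g s) := by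
  obtain ⟨c, hc⟩ := hf
  obtain ⟨d, hd⟩ := hg
  refine ⟨c + d + 2, fun s => (Nat.mul_le_mul (hc s) (hd s)).trans ?_⟩
  show 2 ^ T i ((c + 1) * (s + 1)) * 2 ^ T i ((d + 1) * (s + 1)) ≤
    2 ^ T i ((c + d + 2 + 1) * (s + 1))
  rw [← pow_add]
  exact Nat.pow_le_pow_right (by norm_num) (T_add' i c d s)

theorem E_sq {i : ℕ} {f : ℕ → ℕ} (hf : E (i + 1) f) : E (i + 1) (fun s => f s ^ 2) := by
  have h := E_mul hf hf
  simpa only [pow_two] using h

theorem E_SM {n1 q1 n2 q2 : ℕ → ℕ} {i : ℕ} (h1 : E (i + 3) n1) (h2 : E (i + 3) q1)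
    (h3 : E (i + 1) n2) (h4 : E (i + 1) q2) :
    E (i + 3) (fun s => SM (n1 s) (q1 s) (n2 s) (q2 s)) := by
  have a1 : E (i + 1) (fun s => ((n2 s + 2) * q2 s) ^ 2) :=
    E_sq (E_mul (E_add h3 (E_const _ 2)) h4)
  have a2 : E (i + 3) (fun s => q1 s * 2 ^ 2 ^ (((n2 s + 2) * q2 s) ^ 2)) :=
    E_mul h2 (E_pow (E_pow a1))
  have a3 : E (i + 3) (fun s => (n1 s * q1 s) ^ 2 *
      (q1 s * 2 ^ 2 ^ (((n2 s + 2) * q2 s) ^ 2) + 1)) :=
    E_mul (E_sq (E_mul h1 h2)) (E_add a2 (E_const _ 1))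
  exact E_add h1 a3

theorem pf_EL2 : U_el2 := by
  intro B c hB
  have b3 : E 3 B := by
    refine ⟨c, fun s => (hB s).trans ?_⟩
    show T 3 (c * (s + 1)) ≤ T 3 ((c + 1) * (s + 1))
    exact T_mono 3 (Nat.mul_le_mul_right _ (by omega))
  have b4 : E 4 (fun s => 2 ^ B s) := E_pow b3
  have s0 : E 0 (fun s => s) := E_id 0
  have s1 : E 1 (fun s => 2 ^ s) := E_pow s0
  have f1 : E 6 (fun s => SM (2 ^ s) s (2 ^ B s) (B s)) :=
    E_SM (i := 3) (E_le (by norm_num) s1) (E_id _) b4 (E_le (by norm_num) b3)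
  have f2 : E 6 (fun s => SM (2 ^ B s) (B s) (2 ^ s) s) :=
    E_SM (i := 3) (E_le (by norm_num) b4) (E_le (by norm_num) b3)
      (E_le (by norm_num) s1) (E_id _)
  obtain ⟨d, hd⟩ := E_add f1 f2
  exact ⟨d + 1, hd⟩

end Pool.Agent.H59.SW
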